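import Pool.Agent.Q259.MaxExp.Main
import Pool.Agent.Q259.MaxExp.Seven

/-!
# MP_2ee812_an : the inequality `(∑ a_i^(-2))^(1/2) ≤ S_n(a)` is valid exactly for `n ≤ 6`

Put `u_i = a_i^(-2)`.  At a critical point of `S_n` on the simplex `∑ u_i = 1` the numbers
`G(a_i)`, `G(x) = ∫₀^∞ x ∏ⱼ (1 - exp (-a_j y / x)) y / (e^y - 1) dy`, are all equal, and `G` takes
every value at most twice; hence at most two different `a_i` occur and the inequality is reduced
to finitely many inequalities in one variable.  The boundary of the simplex is handled by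
induction on `n`.
-/

open Finset

namespace Pool.Agent.Results.MP_2ee812_an.ValidIff

/-- `S_n(a_1, …, a_n) = ∑_{∅ ≠ J} (-1)^(|J|+1) (∑_{j ∈ J} a_j)^(-1)`. -/
noncomputable def maxSum (n : ℕ) (a : Fin n → ℝ) : ℝ :=
  ∑ J ∈ (univ : Finset (Finset (Fin n))) with J.Nonempty,
    (-1) ^ (J.card + 1) * (∑ j ∈ J, a j)⁻¹

/-- The inequality `(∗)` is valid for `n`. -/
def Valid (n : ℕ) : Prop :=
  ∀ a : Fin n → ℝ, (∀ i, 0 < a i) → Real.sqrt (∑ i, (a i ^ 2)⁻¹) ≤ maxSum n a

theorem maxSum_eq (n : ℕ) (a : Fin n → ℝ) : maxSum n a = Q259.MaxExp.S univ a := by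
  rw [maxSum, Q259.MaxExp.S, powerset_univ, sum_filter]
  apply sum_congr rfl
  intro J _
  split_ifs with h
  · rfl
  · rw [not_nonempty_iff_eq_empty] at h
    simp [h]

/-- `(∗)` is valid for `n` if and only if `n ≤ 6`. -/
theorem result (n : ℕ) (_hn : 1 ≤ n) : Valid n ↔ n ≤ 6 := by
  constructor
  · intro h
    by_contra hcon
    have h7 : 7 ≤ (univ : Finset (Fin n)).card := by
      rw [card_univ, Fintype.card_fin]
      omega
    have h1 := h (fun _ => 1) fun _ => one_pos
    rw [maxSum_eq] at h1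
    have h2 := Q259.MaxExp.fails h7
    rw [card_univ, Fintype.card_fin] at h2
    simp at h1
    linarith
  · intro h a ha
    rw [maxSum_eq]
    have h1 := Q259.MaxExp.main (s := (univ : Finset (Fin n)))
      (by rw [card_univ, Fintype.card_fin]; exact h) (a := a) fun i _ => ha i
    simp only [inv_pow] at h1
    exact h1

end Pool.Agent.Results.MP_2ee812_an.ValidIff
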